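import Mathlib

set_option autoImplicit false

namespace Pool.Agent.Results.MP_6a28f0_gt.Main

open Set Topology Filter

universe u

def WL (X : Type u) [TopologicalSpace X] : Prop :=
  ∀ 𝒰 : Set (Set X), (∀ U ∈ 𝒰, IsOpen U) → ⋃₀ 𝒰 = univ → ∃ 𝒱 ⊆ 𝒰, 𝒱.Countable ∧ Dense (⋃₀ 𝒱)

section

variable {S : Type u} (𝒰 : ℕ → Set S)

def I : Type u := {f : ℕ → Set S // ∀ n, f n ⊆ 𝒰 n ∧ (f n).Finite}

def Bd (g : I 𝒰) (N : ℕ) : Set (I 𝒰) := {f | ∀ m, N ≤ m → ¬ g.1 m ⊆ f.1 m}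

def Lm (m : ℕ) : Set (Ultrafilter (I 𝒰)) := {p | ∀ U ∈ 𝒰 m, {f : I 𝒰 | U ∈ f.1 m} ∈ p}

def Y (N : ℕ) : Set (Ultrafilter (I 𝒰)) := {p | (∃ g, Bd 𝒰 g N ∈ p) ∨ ∃ m, N ≤ m ∧ p ∈ Lm 𝒰 m}

lemma pure_mem (N : ℕ) (f : I 𝒰) : pure f ∈ Y 𝒰 N := by
  by_cases h : ∃ m, N ≤ m ∧ 𝒰 m ⊆ f.1 m
  · exact Or.inr (h.imp fun m hm => ⟨hm.1, fun U hU => hm.2 hU⟩)
  · have : ∀ m, ∃ s, (s ⊆ 𝒰 m ∧ s.Finite) ∧ (N ≤ m → ¬ s ⊆ f.1 m) := by
      intro m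
      by_cases h1 : 𝒰 m ⊆ f.1 m
      · exact ⟨∅, by simp, fun h2 => absurd ⟨m, h2, h1⟩ h⟩
      · obtain ⟨U, h2, h3⟩ := not_subset.1 h1
        exact ⟨{U}, by simpa, fun _ => by simpa⟩
    choose g h1 h2 using this
    exact Or.inl ⟨⟨g, h1⟩, h2⟩

lemma cover_cpt {N : ℕ} {K : Set (Ultrafilter (I 𝒰))} (hK : IsClosed K) (h : K ⊆ Y 𝒰 N)
    {𝒪 : Set (Set (Y 𝒰 N))} (h1 : ∀ U ∈ 𝒪, IsOpen U) (h2 : ⋃₀ 𝒪 = univ) :
    ∃ 𝒱 ⊆ 𝒪, 𝒱.Finite ∧ ∃ G, IsOpen G ∧ K ⊆ G ∧ Subtype.val ⁻¹' G ⊆ ⋃₀ 𝒱 := by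
  have h3 : IsCompact (Subtype.val ⁻¹' K : Set (Y 𝒰 N)) := by
    rw [Subtype.isCompact_iff, Subtype.image_preimage_coe, inter_eq_right.2 h]
    exact hK.isCompact
  obtain ⟨𝒱, h4, h5, h6⟩ := h3.elim_finite_subcover_image (b := 𝒪) (c := id) h1
    (by simp only [id]; rw [← sUnion_eq_biUnion, h2]; exact subset_univ _)
  simp only [id] at h6
  rw [← sUnion_eq_biUnion] at h6
  obtain ⟨G, h7, h8⟩ := isOpen_induced_iff.1 (isOpen_sUnion fun U hU => h1 U (h4 hU))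
  refine ⟨𝒱, h4, h5, G, h7, fun p hp => ?_, h8.le⟩
  have : (⟨p, h hp⟩ : Y 𝒰 N) ∈ Subtype.val ⁻¹' G := h8 ▸ h6 hp
  exact this

lemma wl (N : ℕ) : WL (Y 𝒰 N) := by
  intro 𝒪 h1 h2
  have h3 : ∀ m, ∃ 𝒱 ⊆ 𝒪, 𝒱.Finite ∧ ∃ s, (s ⊆ 𝒰 m ∧ s.Finite) ∧
      ∀ f : I 𝒰, N ≤ m → s ⊆ f.1 m → ⟨pure f, pure_mem 𝒰 N f⟩ ∈ ⋃₀ 𝒱 := by
    intro m
    by_cases hm : N ≤ m
    swap
    · exact ⟨∅, by simp, by simp, ∅, by simp, fun _ h => absurd h hm⟩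
    have e : Lm 𝒰 m = ⋂ U : 𝒰 m, {p | {f : I 𝒰 | U.1 ∈ f.1 m} ∈ p} := by
      ext p
      simp [Lm]
    obtain ⟨𝒱, h3, h4, G, h5, h6, h7⟩ := cover_cpt 𝒰 (K := Lm 𝒰 m)
      (e ▸ isClosed_iInter fun U => ultrafilter_isClosed_basic _)
      (fun p hp => Or.inr ⟨m, hm, hp⟩) h1 h2
    obtain ⟨t, ht⟩ := h5.isClosed_compl.isCompact.elim_finite_subfamily_closed
      (fun U : 𝒰 m => {p : Ultrafilter (I 𝒰) | {f : I 𝒰 | U.1 ∈ f.1 m} ∈ p})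
      (fun U => ultrafilter_isClosed_basic _) (by
        rw [← e]
        exact (disjoint_compl_left_iff_subset.2 h6).inter_eq)
    refine ⟨𝒱, h3, h4, Subtype.val '' (t : Set (𝒰 m)), ⟨Subtype.coe_image_subset _ _,
      t.finite_toSet.image _⟩, fun f _ hf => h7 ?_⟩
    have ht' := disjoint_compl_left_iff_subset.1 (disjoint_iff_inter_eq_empty.2 ht)
    exact ht' (mem_iInter₂.2 fun U hU => hf ⟨U, hU, rfl⟩)
  choose 𝒱 h3 h4 g h5 h6 using h3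
  obtain ⟨𝒲, h7, h8, G, -, h9, h10⟩ := cover_cpt 𝒰 (ultrafilter_isClosed_basic (Bd 𝒰 ⟨g, h5⟩ N))
    (fun p hp => Or.inl ⟨_, hp⟩) h1 h2
  refine ⟨𝒲 ∪ ⋃ m, 𝒱 m, union_subset h7 (iUnion_subset h3),
    h8.countable.union (countable_iUnion fun m => (h4 m).countable),
    dense_iff_inter_open.2 fun O hO ⟨p, hp⟩ => ?_⟩
  obtain ⟨O', h11, rfl⟩ := isOpen_induced_iff.1 hO
  obtain ⟨f, hf⟩ := denseRange_pure.exists_mem_open h11 ⟨p.1, hp⟩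
  refine ⟨⟨pure f, pure_mem 𝒰 N f⟩, hf, ?_⟩
  by_cases h : f ∈ Bd 𝒰 ⟨g, h5⟩ N
  · exact sUnion_mono subset_union_left (h10 (h9 h))
  · simp only [Bd, mem_ofPred_eq, not_forall, not_not] at h
    obtain ⟨m, h12, h13⟩ := h
    exact sUnion_mono ((subset_iUnion 𝒱 m).trans subset_union_right) (h6 m f h12 h13)

end

def P (X : Type u) : ℕ → Type u
  | 0 => PUnit
  | k + 1 => X × P X k

instance tp (X : Type u) [TopologicalSpace X] : ∀ k, TopologicalSpace (P X k)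
  | 0 => inferInstanceAs (TopologicalSpace PUnit)
  | k + 1 => @instTopologicalSpaceProd _ _ _ (tp X k)

lemma WL.homeo {X Y : Type u} [TopologicalSpace X] [TopologicalSpace Y] (h : WL X) (e : X ≃ₜ Y) :
    WL Y := by
  intro 𝒪 h1 h2
  obtain ⟨𝒱, h3, h4, h5⟩ := h (preimage e '' 𝒪) (forall_mem_image.2 fun U hU =>
    (h1 U hU).preimage e.continuous) (by rw [sUnion_image, ← preimage_sUnion, h2, preimage_univ])
  refine ⟨𝒪 ∩ preimage e ⁻¹' 𝒱, inter_subset_left, (h4.preimage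
    (preimage_injective.2 e.surjective)).mono inter_subset_right, ?_⟩
  refine (e.surjective.denseRange.dense_image e.continuous h5).mono ?_
  rintro _ ⟨x, ⟨V, h6, h7⟩, rfl⟩
  obtain ⟨U, h8, rfl⟩ := h3 h6
  exact ⟨U, ⟨h8, h6⟩, h7⟩

def pw {X : Type u} (V : Set X) : ∀ k, Set (P X k)
  | 0 => univ
  | k + 1 => V ×ˢ pw V k

def bx {X : Type u} : ∀ l : List (Set X), Set (P X l.length)
  | [] => univ
  | W :: l => W ×ˢ bx l

theorem result (X : Type u) [TopologicalSpace X]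
    (hX : ∀ (Z : Type u) [TopologicalSpace Z], WL Z → WL (X × Z))
    (𝒰 : ℕ → Set (Set X)) (h1 : ∀ n, ∀ U ∈ 𝒰 n, IsOpen U) (h2 : ∀ n, ⋃₀ 𝒰 n = univ) :
    ∃ 𝒱 : ℕ → Set (Set X), (∀ n, 𝒱 n ⊆ 𝒰 n ∧ (𝒱 n).Finite) ∧
      ∀ ℱ : Set (Set X), ℱ.Finite → (∀ U ∈ ℱ, IsOpen U ∧ U.Nonempty) →
        {n | ∀ U ∈ ℱ, (U ∩ ⋃₀ 𝒱 n).Nonempty}.Infinite := by
  by_contra h
  push Not at h
  have a1 : ∀ k N, WL (P X k × Y 𝒰 N) := by
    intro k N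
    induction k with
    | zero => exact (wl 𝒰 N).homeo (Homeomorph.punitProd _).symm
    | succ k ih => exact (hX _ ih).homeo (Homeomorph.prodAssoc _ _ _).symm
  have a2 : ∀ V : Set X, IsOpen V → ∀ k, IsOpen (pw V k) := by
    intro V hV k
    induction k with
    | zero => exact isOpen_univ
    | succ k ih => exact hV.prod ih
  have a3 : ∀ m k (x : P X k), ∃ s, (s ⊆ 𝒰 m ∧ s.Finite) ∧ ∀ t, s ⊆ t → x ∈ pw (⋃₀ t) k := by
    intro m k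
    induction k with
    | zero => exact fun _ => ⟨∅, by simp, fun _ _ => trivial⟩
    | succ k ih =>
      rintro ⟨x, y⟩
      obtain ⟨s, h3, h4⟩ := ih y
      obtain ⟨U, h5, h6⟩ : x ∈ ⋃₀ 𝒰 m := h2 m ▸ mem_univ x
      exact ⟨insert U s, ⟨insert_subset h5 h3.1, h3.2.insert U⟩, fun t ht =>
        ⟨⟨U, ht (mem_insert _ _), h6⟩, h4 t ((subset_insert _ _).trans ht)⟩⟩
  have a4 : ∀ l : List (Set X), (∀ W ∈ l, IsOpen W ∧ W.Nonempty) →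
      IsOpen (bx l) ∧ (bx l).Nonempty := by
    intro l
    induction l with
    | nil => exact fun _ => ⟨isOpen_univ, ⟨PUnit.unit, trivial⟩⟩
    | cons W l ih =>
      intro h
      have h3 := ih fun V hV => h V (List.mem_cons_of_mem _ hV)
      exact ⟨(h W List.mem_cons_self).1.prod h3.1, (h W List.mem_cons_self).2.prod h3.2⟩
  have a5 : ∀ (V : Set X) (l : List (Set X)) x, x ∈ bx l → x ∈ pw V l.length →
      ∀ W ∈ l, (W ∩ V).Nonempty := by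
    intro V l
    induction l with
    | nil => simp
    | cons W l ih =>
      rintro ⟨x, y⟩ h3 h4 U hU
      rcases List.mem_cons.1 hU with rfl | hU
      · exact ⟨x, h3.1, h4.1⟩
      · exact ih y h3.2 h4.2 U hU
  have a6 : ∀ k N, ∃ T : Set (I 𝒰), T.Countable ∧ ∀ (f : I 𝒰) (W : Set (P X k)), IsOpen W →
      W.Nonempty → (∀ m, N ≤ m → Disjoint W (pw (⋃₀ f.1 m) k)) → ∃ g ∈ T, f ∈ Bd 𝒰 g N := by
    intro k N
    obtain ⟨𝒱, h3, h4, h5⟩ := a1 k N {O | IsOpen O ∧ ∃ g, ∀ (f : I 𝒰) x,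
        (x, ⟨pure f, pure_mem 𝒰 N f⟩) ∈ O → f ∈ Bd 𝒰 g N ∨ ∃ m, N ≤ m ∧ x ∈ pw (⋃₀ f.1 m) k}
        (fun O hO => hO.1) (by
      refine eq_univ_of_forall ?_
      rintro ⟨x, p, ⟨g, hg⟩ | ⟨m, h3, h4⟩⟩
      · exact ⟨univ ×ˢ (Subtype.val ⁻¹' {p | Bd 𝒰 g N ∈ p}), ⟨isOpen_univ.prod
          ((ultrafilter_isOpen_basic _).preimage continuous_subtype_val), g,
          fun f x h => Or.inl h.2⟩, trivial, hg⟩
      · obtain ⟨s, h5, h6⟩ := a3 m k x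
        refine ⟨pw (⋃₀ s) k ×ˢ (Subtype.val ⁻¹' {p | {f : I 𝒰 | s ⊆ f.1 m} ∈ p}),
          ⟨(a2 _ (isOpen_sUnion fun U hU => h1 m U (h5.1 hU)) k).prod
          ((ultrafilter_isOpen_basic _).preimage continuous_subtype_val), ⟨fun _ => ∅, by simp⟩,
          fun f y h => Or.inr ⟨m, h3, ?_⟩⟩, h6 s Subset.rfl, ?_⟩
        · have h7 : ∀ k (y : P X k), y ∈ pw (⋃₀ s) k → y ∈ pw (⋃₀ f.1 m) k := by
            intro k
            induction k with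
            | zero => exact fun _ _ => trivial
            | succ k ih => exact fun y hy => ⟨sUnion_mono h.2 hy.1, ih _ hy.2⟩
          exact h7 k y h.1
        · exact mem_of_superset ((biInter_mem h5.2).2 fun U hU => h4 U (h5.1 hU))
            fun f hf U hU => mem_iInter₂.1 hf U hU)
    choose g hg using fun O : 𝒱 => (h3 O.2).2
    have := h4.to_subtype
    refine ⟨range g, countable_range g, fun f W h6 h7 h8 => ?_⟩
    obtain ⟨⟨x, p⟩, ⟨h9, h10⟩, O, h11, h12⟩ := h5.inter_open_nonempty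
      (W ×ˢ (Subtype.val ⁻¹' {p : Ultrafilter (I 𝒰) | ({f} : Set (I 𝒰)) ∈ p})) (h6.prod
      ((ultrafilter_isOpen_basic ({f} : Set (I 𝒰))).preimage continuous_subtype_val))
      (h7.prod ⟨⟨pure f, pure_mem 𝒰 N f⟩, Ultrafilter.mem_pure.2 rfl⟩)
    obtain rfl : p = ⟨pure f, pure_mem 𝒰 N f⟩ :=
      Subtype.ext (Ultrafilter.eq_of_le (le_pure_iff.2 h10))
    rcases hg ⟨O, h11⟩ f x h12 with h13 | ⟨m, h13, h14⟩
    · exact ⟨_, ⟨_, rfl⟩, h13⟩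
    · exact absurd h14 (disjoint_left.1 (h8 m h13) h9)
  choose T a6 a7 using a6
  have : Nonempty (I 𝒰) := ⟨⟨fun _ => ∅, by simp⟩⟩
  obtain ⟨e, he⟩ := countable_iff_exists_subset_range.1
    (countable_iUnion fun k => countable_iUnion fun N => a6 k N)
  let f : I 𝒰 := ⟨fun m => ⋃ j ∈ Iic m, (e j).1 m, fun m =>
    ⟨iUnion₂_subset fun j _ => ((e j).2 m).1, (finite_Iic m).biUnion fun j _ => ((e j).2 m).2⟩⟩
  obtain ⟨ℱ, b1, b2, b3⟩ := h f.1 f.2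
  obtain ⟨N, hN⟩ := b3.bddAbove
  have b4 := a4 b1.toFinset.toList fun W hW => b2 W (by simpa using hW)
  obtain ⟨g, b5, b6⟩ := a7 _ (N + 1) f _ b4.1 b4.2 fun m hm => disjoint_left.2 fun x h3 h4 =>
    (hN fun U hU => a5 _ _ x h3 h4 U (by simpa using hU)).not_gt hm
  obtain ⟨j, rfl⟩ := he (mem_iUnion₂.2 ⟨_, _, b5⟩)
  exact b6 (max j (N + 1)) (le_max_right _ _)
    (subset_biUnion_of_mem (u := fun i => (e i).1 (max j (N + 1))) (mem_Iic.2 (le_max_left _ _)))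

end Pool.Agent.Results.MP_6a28f0_gt.Main
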